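import Pool.Agent.K3h14.NC.Fin2

/-!
# The near-critical window of the exploration path of bond percolation on the square lattice

Bond percolation on `δ ℤ²` in the rectangle `(-A, B) × (0, H)` with Dobrushin boundary conditions:
the counterclockwise boundary arc from `a = t + i H` to `b = 0` is open, the complementary arc is
dual-open. `R.law` is the law of the trace of the exploration path at `p = 1/2` (a random nonempty
compact set, with the Hausdorff metric), and `law R hδ p` is the law of the trace if the edge `e` is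
open with probability `p e`, independently.

Let `δ n → 0`.

* If `|p n e - 1/2| ≤ η n` for all edges and `η n * (δ n)^(-3/4) → 0`, then the bounded Lipschitz
  distance between the law at `p n` and the law at `1/2` tends to zero.
* For homogeneous parameters `p n` this holds if and only if `(p n - 1/2) * (δ n)^(-3/4) → 0`; in
  particular if the critical laws converge to `μ` (along the sequence `δ n`), then the laws at `p n`
  converge to `μ` if and only if `(p n - 1/2) * (δ n)^(-3/4) → 0`.
* The path converges to the dual arc (to the open arc) if and only if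
  `(p n - 1/2) * (δ n)^(-3/4) → ∞` (`→ -∞`).

So the window in `p` around `1/2` of the scaling limit of the exploration path is exactly
`|p - 1/2|` of order `δ^(3/4)`.
-/

set_option autoImplicit false

namespace Pool.Agent.Results.MP_fe58d8_pr.NearCriticalPath

open MeasureTheory TopologicalSpace Filter Topology unitInterval
open K3h14.NC H974 H934E

theorem result (R : Rect) (δ : ℕ → ℝ) (hδ : ∀ n, 0 < δ n) (hlim : Tendsto δ atTop (𝓝 0)) :
    (∀ (p : ℕ → Edg → I) (η : ℕ → ℝ),
      (∀ n, ∀ e ∈ R.edges (δ n), |(p n e : ℝ) - 1/2| ≤ η n) →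
      Tendsto (fun n => η n * δ n ^ (-(3/4 : ℝ))) atTop (𝓝 0) →
      Merge (fun n => law R (hδ n) (p n)) (fun n => R.law (hδ n))) ∧
    ∀ p : ℕ → I,
      (Merge (fun n => law R (hδ n) (fun _ => p n)) (fun n => R.law (hδ n)) ↔
        Tendsto (fun n => ((p n : ℝ) - 1/2) * δ n ^ (-(3/4 : ℝ))) atTop (𝓝 0)) ∧
      (∀ μ : ProbabilityMeasure (NonemptyCompacts ℂ),
        Tendsto (fun n => R.law (hδ n)) atTop (𝓝 μ) →
        (Tendsto (fun n => law R (hδ n) (fun _ => p n)) atTop (𝓝 μ) ↔
          Tendsto (fun n => ((p n : ℝ) - 1/2) * δ n ^ (-(3/4 : ℝ))) atTop (𝓝 0))) ∧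
      (Tendsto (fun n => law R (hδ n) (fun _ => p n)) atTop (𝓝 (diracProba (dArcK R))) ↔
        Tendsto (fun n => ((p n : ℝ) - 1/2) * δ n ^ (-(3/4 : ℝ))) atTop atTop) ∧
      (Tendsto (fun n => law R (hδ n) (fun _ => p n)) atTop (𝓝 (diracProba (wArcK R))) ↔
        Tendsto (fun n => ((p n : ℝ) - 1/2) * δ n ^ (-(3/4 : ℝ))) atTop atBot) := by
  have hh : (fun n => R.law (hδ n)) = fun n => law R (hδ n) (fun _ => half) :=
    funext fun n => (law_half R (hδ n)).symm
  rw [hh]
  refine ⟨?_, fun p => ⟨merge_iff R hδ hlim p, fun μ hμ => limit_iff R hδ hlim p hμ,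
    dirac_dArc R hδ hlim p, dirac_wArc R hδ hlim p⟩⟩
  intro p η hp hη
  refine merge_in R hδ hlim (η := fun n => |η n|) (fun n e he => (hp n e he).trans (le_abs_self _))
    (fun n e _ => by rw [coe_half, sub_self, abs_zero]; exact abs_nonneg _) ?_
  have := hη.abs
  rw [abs_zero] at this
  refine this.congr (fun n => ?_)
  rw [abs_mul, abs_of_nonneg (Real.rpow_nonneg (hδ n).le (-(3/4 : ℝ)))]

end Pool.Agent.Results.MP_fe58d8_pr.NearCriticalPath
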