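import Pool.Agent.K3h14.NC.Width4

/-!
# The width of the exploration path off the critical point

Bond percolation with parameter `p` on `δ ℤ²` in the rectangle `(-A, B) × (0, H)` with Dobrushin
boundary conditions: the counterclockwise boundary arc from `a = t + i H` to `b = 0` is open
(`wArcK R`), the complementary arc is dual-open (`dArcK R`). `law R hδ (fun _ => p)` is the law of
the trace of the exploration path (a random nonempty compact set), `dist` is the Hausdorff distance.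

* Two-sided bounds, uniform in `ε`, `δ`, `p`, for the probability that the path is at distance at
  least `ε` from the dual arc for `p > 1/2` (from the open arc for `p < 1/2`): they are of order
  `exp (-Θ(ε / L))`, where `L = δ |p - 1/2|^(-4/3)`.
* If `p n ≠ 1/2` and `L n = δ n |p n - 1/2|^(-4/3)` tends to zero, then the distance of the path
  from the arc is of exact order `L n * log (1 / L n)` with probability tending to one.
-/

set_option autoImplicit false

namespace Pool.Agent.Results.MP_fe58d8_pr.OffCriticalWidth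

open MeasureTheory TopologicalSpace Filter Topology unitInterval
open K3h14.NC H974 H934E

theorem result (R : Rect) : ∃ c C : ℝ, 0 < c ∧ 0 < C ∧
    (∀ (δ : ℝ) (hδ : 0 < δ) (ε : ℝ), C * δ ≤ ε → ε ≤ c → ∀ p : I,
      (1/2 ≤ (p:ℝ) → (p:ℝ) ≤ 3/4 →
        1 - Real.exp (-(c / ε * Real.exp (-(C * (ε * ((p:ℝ) - 1/2) ^ (4/3 : ℝ) / δ))))) ≤
          (law R hδ (fun _ => p) : Measure (NonemptyCompacts ℂ)).real
            {K | ε ≤ dist K (dArcK R)} ∧
        (law R hδ (fun _ => p) : Measure (NonemptyCompacts ℂ)).real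
            {K | ε ≤ dist K (dArcK R)} ≤
          C / ε ^ 2 * Real.exp (-(c * (ε * ((p:ℝ) - 1/2) ^ (4/3 : ℝ) / δ)))) ∧
      (1/4 ≤ (p:ℝ) → (p:ℝ) ≤ 1/2 →
        1 - Real.exp (-(c / ε * Real.exp (-(C * (ε * (1/2 - (p:ℝ)) ^ (4/3 : ℝ) / δ))))) ≤
          (law R hδ (fun _ => p) : Measure (NonemptyCompacts ℂ)).real
            {K | ε ≤ dist K (wArcK R)} ∧
        (law R hδ (fun _ => p) : Measure (NonemptyCompacts ℂ)).real
            {K | ε ≤ dist K (wArcK R)} ≤
          C / ε ^ 2 * Real.exp (-(c * (ε * (1/2 - (p:ℝ)) ^ (4/3 : ℝ) / δ))))) ∧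
    (∀ (δ : ℕ → ℝ) (hδ : ∀ n, 0 < δ n) (p : ℕ → I) (L : ℕ → ℝ), Tendsto L atTop (𝓝 0) →
      ((∀ n, 1/2 < (p n : ℝ) ∧ (p n : ℝ) ≤ 3/4 ∧
          L n = δ n / ((p n : ℝ) - 1/2) ^ (4/3 : ℝ)) →
        Tendsto (fun n => (law R (hδ n) (fun _ => p n) : Measure (NonemptyCompacts ℂ)).real
          {K | c * (L n * Real.log (1 / L n)) ≤ dist K (dArcK R) ∧
            dist K (dArcK R) ≤ C * (L n * Real.log (1 / L n))}) atTop (𝓝 1)) ∧
      ((∀ n, 1/4 ≤ (p n : ℝ) ∧ (p n : ℝ) < 1/2 ∧
          L n = δ n / (1/2 - (p n : ℝ)) ^ (4/3 : ℝ)) →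
        Tendsto (fun n => (law R (hδ n) (fun _ => p n) : Measure (NonemptyCompacts ℂ)).real
          {K | c * (L n * Real.log (1 / L n)) ≤ dist K (wArcK R) ∧
            dist K (wArcK R) ≤ C * (L n * Real.log (1 / L n))}) atTop (𝓝 1))) :=
  width_all R

end Pool.Agent.Results.MP_fe58d8_pr.OffCriticalWidth
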