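import Pool.Agent.K3h14.TV.Fin

/-!
# Total variation distance between the near-critical and the critical exploration path

Bond percolation with parameter `p` on `δ ℤ²` in a rectangle `D = (-A, B) × (0, H)`, with the
counterclockwise boundary arc from `a = t + i H` to `b = 0` wired and the other one dual-wired;
exploration path from `a` to `b`. `Rect.curve` is the path as a curve on `[0, 1]` with constant
speed, `Rect.time` is its number of steps times `δ ^ (7/4)`, and `lawP R p δ` is the law of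
(curve, time) at the parameter `p`.

With `x = |p - 1/2| δ ^ (-7/8)`, uniformly for `δ ≤ δ0` and `|p - 1/2| ≤ h0`, the total variation
distance `tv` between the laws at `p` and at `1/2` satisfies `c min (1, x) ≤ tv ≤ C x` and
`c exp (- C x ^ (8/7)) ≤ 1 - tv ≤ C exp (- c x ^ (8/7))`. So the laws merge in total variation if
and only if `|p - 1/2| δ ^ (-7/8) → 0`, and they become mutually singular if and only if
`|p - 1/2| δ ^ (-7/8) → ∞`. (The threshold for the scaling limits is `δ ^ (3/4)`.)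

Definitions: `lawP` and `tv` below; `Pool.Agent.H984R4.NP.Model` (`Rect`, `pos`, `clamp`, `pl`, `X`,
`Rect.dm`, `Rect.curve`, `Rect.time`), `Pool.Agent.H984R4.NP.Defs` (`Dm`, `Dm.edges`, `Dm.wir`,
`Dm.cfg`, `Dm.walk`, `Dm.len`) and `Pool.Agent.H984R3.Per.Defs` (states, `ae`, `mv`, `rt`, `nxt`,
`orb`).
-/

set_option autoImplicit false

namespace Pool.Agent.Results.MP_fe58d8_pr.TotalVariation

open H974 H984N MeasureTheory Filter Topology

/-- The law of the exploration path, as a curve with its natural time, at mesh `δ`, if the edges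
are open with probability `p`, independently. -/
noncomputable def lawP (R : Rect) (p δ : ℝ) : Measure X :=
  ∑ F ∈ (R.dm δ).edges.powerset,
    ENNReal.ofReal (p ^ F.card * (1 - p) ^ ((R.dm δ).edges \ F).card) •
      Measure.dirac (R.curve δ F, R.time δ F)

/-- Total variation distance. -/
noncomputable def tv (μ ν : Measure X) : ℝ :=
  sSup {x : ℝ | ∃ G : Set X, MeasurableSet G ∧ x = |μ.real G - ν.real G|}

theorem lawP_real (R : Rect) {p : ℝ} (h0 : 0 ≤ p) (h1 : p ≤ 1) (δ : ℝ) {G : Set X}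
    (hG : MeasurableSet G) : (lawP R p δ).real G = K3h14.TV.prG R p δ G := by
  classical
  have hp : 0 ≤ K3h14.TV.prG R p δ G := Pr_nonneg (okq h0 h1) _ _
  have key : lawP R p δ G = ENNReal.ofReal (K3h14.TV.prG R p δ G) := by
    unfold lawP K3h14.TV.prG Pr Ex
    have hq : 0 ≤ 1 - p := by linarith
    rw [Measure.finsetSum_apply, ENNReal.ofReal_sum_of_nonneg
      (fun F _ => mul_nonneg (mul_nonneg (Finset.prod_nonneg fun _ _ => h0)
        (Finset.prod_nonneg fun _ _ => hq)) (ind_nonneg _))]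
    apply Finset.sum_congr rfl
    intro F _
    rw [Measure.smul_apply, Measure.dirac_apply' _ hG, smul_eq_mul, Finset.prod_const,
      Finset.prod_const]
    by_cases h : (R.curve δ F, R.time δ F) ∈ G
    · rw [ind_of h, Set.indicator_of_mem h, mul_one]
      simp
    · rw [ind_not_of h, Set.indicator_of_notMem h]
      simp
  unfold Measure.real
  rw [key, ENNReal.toReal_ofReal hp]

theorem tv_eq (R : Rect) {p : ℝ} (h0 : 0 ≤ p) (h1 : p ≤ 1) (δ : ℝ) :
    tv (lawP R p δ) (lawP R (1/2) δ) = K3h14.TV.tvd R p δ := by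
  unfold tv K3h14.TV.tvd
  congr 1
  ext x
  constructor
  · rintro ⟨G, hG, h⟩
    refine ⟨G, hG, ?_⟩
    rw [h, lawP_real R h0 h1 δ hG, lawP_real R (by norm_num) (by norm_num) δ hG]
  · rintro ⟨G, hG, h⟩
    refine ⟨G, hG, ?_⟩
    rw [h, lawP_real R h0 h1 δ hG, lawP_real R (by norm_num) (by norm_num) δ hG]

theorem result (R : Rect) : ∃ c C h0 δ0 : ℝ, 0 < c ∧ 0 < C ∧ 0 < h0 ∧ 0 < δ0 ∧
    (∀ δ : ℝ, 0 < δ → δ ≤ δ0 → ∀ p : ℝ, |p - 1/2| ≤ h0 →
      (c * min 1 (|p - 1/2| * δ ^ (-(7/8) : ℝ)) ≤ tv (lawP R p δ) (lawP R (1/2) δ) ∧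
        tv (lawP R p δ) (lawP R (1/2) δ) ≤ C * (|p - 1/2| * δ ^ (-(7/8) : ℝ))) ∧
      c * Real.exp (-(C * (|p - 1/2| * δ ^ (-(7/8) : ℝ)) ^ (8/7 : ℝ))) ≤
          1 - tv (lawP R p δ) (lawP R (1/2) δ) ∧
        1 - tv (lawP R p δ) (lawP R (1/2) δ) ≤
          C * Real.exp (-(c * (|p - 1/2| * δ ^ (-(7/8) : ℝ)) ^ (8/7 : ℝ)))) ∧
    ∀ δ p : ℕ → ℝ, (∀ i, 0 < δ i) → Tendsto δ atTop (𝓝 0) → (∀ i, |p i - 1/2| ≤ h0) →
      (Tendsto (fun i => tv (lawP R (p i) (δ i)) (lawP R (1/2) (δ i))) atTop (𝓝 0) ↔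
        Tendsto (fun i => |p i - 1/2| * (δ i) ^ (-(7/8) : ℝ)) atTop (𝓝 0)) ∧
      (Tendsto (fun i => tv (lawP R (p i) (δ i)) (lawP R (1/2) (δ i))) atTop (𝓝 1) ↔
        Tendsto (fun i => |p i - 1/2| * (δ i) ^ (-(7/8) : ℝ)) atTop atTop) := by
  obtain ⟨c, C, h0, δ0, hc, hC, hh, hδ0, h⟩ := K3h14.TV.tv_main R
  have hm0 : 0 < min h0 (1/2) := lt_min hh (by norm_num)
  have main : ∀ δ : ℝ, 0 < δ → δ ≤ δ0 → ∀ p : ℝ, |p - 1/2| ≤ min h0 (1/2) →
      (c * min 1 (|p - 1/2| * δ ^ (-(7/8) : ℝ)) ≤ tv (lawP R p δ) (lawP R (1/2) δ) ∧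
        tv (lawP R p δ) (lawP R (1/2) δ) ≤ C * (|p - 1/2| * δ ^ (-(7/8) : ℝ))) ∧
      c * Real.exp (-(C * (|p - 1/2| * δ ^ (-(7/8) : ℝ)) ^ (8/7 : ℝ))) ≤
          1 - tv (lawP R p δ) (lawP R (1/2) δ) ∧
        1 - tv (lawP R p δ) (lawP R (1/2) δ) ≤
          C * Real.exp (-(c * (|p - 1/2| * δ ^ (-(7/8) : ℝ)) ^ (8/7 : ℝ))) := by
    intro δ hδ hδδ p hp
    have h2 := abs_le.mp (hp.trans (min_le_right _ _))
    rw [tv_eq R (by linarith [h2.1]) (by linarith [h2.2])]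
    exact h δ hδ hδδ p (hp.trans (min_le_left _ _))
  refine ⟨c, C, min h0 (1/2), δ0, hc, hC, hm0, hδ0, main, ?_⟩
  intro δ p hδ hlim hp
  apply K3h14.TV.tv_seq hc hC
  · intro i
    exact mul_nonneg (abs_nonneg _) (Real.rpow_nonneg (hδ i).le _)
  · filter_upwards [hlim.eventually (Iic_mem_nhds hδ0)] with i hi
    exact main (δ i) (hδ i) hi (p i) (hp i)

end Pool.Agent.Results.MP_fe58d8_pr.TotalVariation
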