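import Pool.Agent.K3h93.UR.Line
import Pool.Agent.Results.MP_fe58d8_pr.BoundaryTimes

/-!
# Uniform bounds for the intersections of the exploration path with smooth images of sets

Critical bond percolation on `δ ℤ²` in a rectangle `D = (-A, B) × (0, H)`, with the counterclockwise
boundary arc from `a = t + i H` to `b = 0` wired and the other one dual-wired. The exploration path
is parametrised by its number of steps: `Rect.curve` is the piecewise linear curve on `[0, 1]` run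
at constant speed, and `Rect.time` is the number of steps times `δ ^ (7/4)`; `Rect.law` is the law
of (curve, time). Weak limits exist along a subsequence of every sequence of meshes.

Let `μ` be a weak limit and let `K` be a set of Assouad dimension at most `s` (for instance a line,
`s = 1`). Then, almost surely, simultaneously for all sets `A` which are locally modelled on `K`
and for all the images `A = φ(K)` under maps `φ` which are differentiable with invertible
derivative at the points of `K`, the part in `D ∩ A` of the trace has Hausdorff dimension at most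
`max (s - 1/4, 0)`, and the set of times spent in `D ∩ A` has dimension at most
`(4/7) max (s - 1/4, 0)`.

Almost surely, for every map `γ : ℝ → ℂ`, the trace meets the image of the set of points where `γ`
has a nonzero derivative in dimension at most `3/4`, at a set of times of dimension at most `3/7`,
and if `γ` is Lipschitz then it meets `γ` in a set of length zero (the trace is purely
unrectifiable).

Definitions: `Pool.Agent.K3h93.UR.Config` (`Hom`), `Pool.Agent.K3h93.UR.Main` (`Modelled`),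
`Pool.Agent.H984R4.NP.Model` (`Rect`, `pos`, `clamp`, `pl`, `X`, `Rect.D`, `Rect.dm`,
`Rect.curve`, `Rect.time`, `Rect.law`), `Pool.Agent.H984R4.NP.Defs` (`Dm`, `Dm.edges`, `Dm.wir`,
`Dm.cfg`, `Dm.walk`, `Dm.len`) and `Pool.Agent.H984R3.Per.Defs` (states, `ae`, `mv`, `rt`, `nxt`,
`orb`).
-/

namespace Pool.Agent.Results.MP_fe58d8_pr.UniformIntersections

open H984N MeasureTheory Filter Topology
open scoped ENNReal

theorem four_sevenths : (4 / 7 : ℝ≥0∞) * (7 / 4) = 1 := by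
  have a1 : (4 / 7 : ℝ≥0∞) = ENNReal.ofReal (4 / 7) := by
    rw [ENNReal.ofReal_div_of_pos (by norm_num)]; norm_num
  have a2 : (7 / 4 : ℝ≥0∞) = ENNReal.ofReal (7 / 4) := by
    rw [ENNReal.ofReal_div_of_pos (by norm_num)]; norm_num
  rw [a1, a2, ← ENNReal.ofReal_mul (by norm_num)]
  norm_num

/-- Dimension of the set of times from the dimension of the trace. -/
theorem times_le {f : C(unitInterval, ℂ)}
    (h : ∀ E : Set unitInterval, dimH (f '' E) = 7 / 4 * dimH E) {B : Set ℂ} {c : ℝ≥0∞}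
    (hB : dimH (Set.range f ∩ B) ≤ c) : dimH {t : unitInterval | f t ∈ B} ≤ 4 / 7 * c := by
  have e : f '' {t : unitInterval | f t ∈ B} = Set.range f ∩ B := Set.image_preimage_eq_range_inter
  have h1 := h {t : unitInterval | f t ∈ B}
  rw [e] at h1
  calc dimH {t : unitInterval | f t ∈ B}
      = 4 / 7 * (7 / 4 * dimH {t : unitInterval | f t ∈ B}) := by
        rw [← mul_assoc, four_sevenths, one_mul]
    _ = 4 / 7 * dimH (Set.range f ∩ B) := by rw [h1]
    _ ≤ 4 / 7 * c := by gcongr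

theorem three_sevenths : (4 / 7 : ℝ≥0∞) * (3 / 4) = 3 / 7 := by
  have a1 : (4 / 7 : ℝ≥0∞) = ENNReal.ofReal (4 / 7) := by
    rw [ENNReal.ofReal_div_of_pos (by norm_num)]; norm_num
  have a2 : (3 / 4 : ℝ≥0∞) = ENNReal.ofReal (3 / 4) := by
    rw [ENNReal.ofReal_div_of_pos (by norm_num)]; norm_num
  have a3 : (3 / 7 : ℝ≥0∞) = ENNReal.ofReal (3 / 7) := by
    rw [ENNReal.ofReal_div_of_pos (by norm_num)]; norm_num
  rw [a1, a2, a3, ← ENNReal.ofReal_mul (by norm_num)]
  norm_num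

theorem three_quarters : ENNReal.ofReal (1 - 1 / 4) = 3 / 4 := by
  have a2 : (3 / 4 : ℝ≥0∞) = ENNReal.ofReal (3 / 4) := by
    rw [ENNReal.ofReal_div_of_pos (by norm_num)]; norm_num
  rw [a2]
  norm_num

theorem two_thirds_le : (2 / 3 : ℝ≥0∞) ≤ 3 / 4 := by
  have a1 : (2 / 3 : ℝ≥0∞) = ENNReal.ofReal (2 / 3) := by
    rw [ENNReal.ofReal_div_of_pos (by norm_num)]; norm_num
  have a2 : (3 / 4 : ℝ≥0∞) = ENNReal.ofReal (3 / 4) := by
    rw [ENNReal.ofReal_div_of_pos (by norm_num)]; norm_num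
  rw [a1, a2]
  exact ENNReal.ofReal_le_ofReal (by norm_num)

theorem three_quarters_lt : (3 / 4 : ℝ≥0∞) < 1 := by
  have a2 : (3 / 4 : ℝ≥0∞) = ENNReal.ofReal (3 / 4) := by
    rw [ENNReal.ofReal_div_of_pos (by norm_num)]; norm_num
  rw [a2, ← ENNReal.ofReal_one]
  exact (ENNReal.ofReal_lt_ofReal_iff (by norm_num)).mpr (by norm_num)

theorem isOpen_D (R : Rect) : IsOpen R.D := by
  have h1 : IsOpen {z : ℂ | -R.A < z.re} := isOpen_lt continuous_const Complex.continuous_re
  have h2 : IsOpen {z : ℂ | z.re < R.B} := isOpen_lt Complex.continuous_re continuous_const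
  have h3 : IsOpen {z : ℂ | 0 < z.im} := isOpen_lt continuous_const Complex.continuous_im
  have h4 : IsOpen {z : ℂ | z.im < R.H} := isOpen_lt Complex.continuous_im continuous_const
  exact h1.inter (h2.inter (h3.inter h4))

theorem result (R : Rect) :
    (∀ δ : ℕ → ℝ, (∀ i, 0 < δ i) → Tendsto δ atTop (𝓝 0) →
      ∃ φ : ℕ → ℕ, StrictMono φ ∧ ∃ μ : ProbabilityMeasure X,
        Tendsto (fun i => R.law (δ (φ i))) atTop (𝓝 μ)) ∧
    (∀ δ : ℕ → ℝ, (∀ i, 0 < δ i) → Tendsto δ atTop (𝓝 0) → ∀ μ : ProbabilityMeasure X,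
      Tendsto (fun i => R.law (δ i)) atTop (𝓝 μ) →
      (∀ (K : Set ℂ) (s : ℝ), (∀ s' : ℝ, s < s' → K93U.Hom K s') →
        ∀ᵐ p ∂(μ : Measure X),
          (∀ A : Set ℂ, K93U.Modelled K A →
            dimH (Set.range p.1 ∩ (R.D ∩ A)) ≤ ENNReal.ofReal (s - 1 / 4) ∧
            dimH {t : unitInterval | p.1 t ∈ R.D ∩ A} ≤ 4 / 7 * ENNReal.ofReal (s - 1 / 4)) ∧
          (∀ φ : ℂ → ℂ,
            (∀ κ ∈ K, ∃ L : ℂ ≃L[ℝ] ℂ, HasFDerivWithinAt φ (L : ℂ →L[ℝ] ℂ) K κ) →
            dimH (Set.range p.1 ∩ (R.D ∩ φ '' K)) ≤ ENNReal.ofReal (s - 1 / 4) ∧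
            dimH {t : unitInterval | p.1 t ∈ R.D ∩ φ '' K} ≤
              4 / 7 * ENNReal.ofReal (s - 1 / 4))) ∧
      (∀ᵐ p ∂(μ : Measure X), ∀ γ : ℝ → ℂ,
        dimH (Set.range p.1 ∩ γ '' {u | ∃ v, v ≠ 0 ∧ HasDerivAt γ v u}) ≤ 3 / 4 ∧
        dimH {t : unitInterval | p.1 t ∈ γ '' {u | ∃ v, v ≠ 0 ∧ HasDerivAt γ v u}} ≤ 3 / 7 ∧
        ((∃ C, LipschitzWith C γ) → μH[1] (Set.range p.1 ∩ Set.range γ) = 0))) := by
  obtain ⟨h1, h2⟩ := UniformDimension.result R
  refine ⟨h1, fun δ hδ hlim μ hμ => ?_⟩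
  obtain ⟨-, -, C, hC, hA⟩ := UniformDimension.inputs
  constructor
  · intro K s hK
    filter_upwards [h2 δ hδ hlim μ hμ, K93U.modelled_ae hC hA R hδ hlim hμ hK] with p hp hm
    have h3 : ∀ A : Set ℂ, K93U.Modelled K A →
        dimH (Set.range p.1 ∩ (R.D ∩ A)) ≤ ENNReal.ofReal (s - 1 / 4) := by
      intro A hA
      rw [← Set.inter_assoc]
      exact hm A hA
    refine ⟨fun A hA => ⟨h3 A hA, times_le hp (h3 A hA)⟩, fun φ hφ => ?_⟩
    obtain ⟨A, hA1, hA2⟩ := K93U.image_modelled hφ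
    have h4 : dimH (Set.range p.1 ∩ (R.D ∩ φ '' K)) ≤ ENNReal.ofReal (s - 1 / 4) := by
      have hsub : Set.range p.1 ∩ (R.D ∩ φ '' K) ⊆ ⋃ n, Set.range p.1 ∩ (R.D ∩ A n) := by
        rintro z ⟨hz1, hz2, hz3⟩
        obtain ⟨n, hn⟩ := Set.mem_iUnion.mp (hA2 hz3)
        exact Set.mem_iUnion.mpr ⟨n, hz1, hz2, hn⟩
      refine (dimH_mono hsub).trans ?_
      rw [dimH_iUnion]
      exact iSup_le fun n => h3 (A n) (hA1 n)
    exact ⟨h4, times_le hp h4⟩
  · filter_upwards [h2 δ hδ hlim μ hμ, K93U.modelled_ae hC hA R hδ hlim hμ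
      (fun s' hs' => K93U.hom_line hs'), (NaturalCurve.result R).2.2.2 δ hδ hlim μ hμ,
      H443B.dims R hδ hlim hμ] with p hp hm hq hd γ
    obtain ⟨-, -, -, hcl, -⟩ := hq
    obtain ⟨d1, -⟩ := hd
    obtain ⟨A, hA1, hA2⟩ := K93U.regular_modelled γ
    have h4 : dimH (Set.range p.1 ∩ γ '' {u | ∃ v, v ≠ 0 ∧ HasDerivAt γ v u}) ≤ 3 / 4 := by
      have hsub : Set.range p.1 ∩ γ '' {u | ∃ v, v ≠ 0 ∧ HasDerivAt γ v u} ⊆
          (⋃ n, Set.range p.1 ∩ R.D ∩ A n) ∪ (Set.range p.1 ∩ frontier R.D) := by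
        rintro z ⟨⟨t, rfl⟩, hz⟩
        by_cases hD : p.1 t ∈ R.D
        · left
          obtain ⟨n, hn⟩ := Set.mem_iUnion.mp (hA2 hz)
          exact Set.mem_iUnion.mpr ⟨n, ⟨⟨t, rfl⟩, hD⟩, hn⟩
        · right
          refine ⟨⟨t, rfl⟩, hcl t, ?_⟩
          rwa [(isOpen_D R).interior_eq]
      refine (dimH_mono hsub).trans ?_
      rw [dimH_union, dimH_iUnion, d1]
      refine max_le (iSup_le fun n => ?_) two_thirds_le
      rw [← three_quarters]
      exact hm (A n) (hA1 n)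
    refine ⟨h4, ?_, ?_⟩
    · have h5 := times_le hp h4
      rwa [three_sevenths] at h5
    · rintro ⟨c, hc⟩
      exact K93U.lip_null hc (lt_of_le_of_lt h4 three_quarters_lt)

end Pool.Agent.Results.MP_fe58d8_pr.UniformIntersections
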